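import Mathlib

namespace Pool.Agent.Results.MP_90f83a_nt.Q1

open Finset

theorem result (r s : ℕ) (hs : 1 < s) (hr : s < r) (c : ℕ → ℚ)
    (h : ∀ n : ℕ, ∑ k ∈ range (n + 1), (n.choose k : ℚ) ^ r * ((n + k).choose k : ℚ) ^ r =
      ∑ k ∈ range (n + 1), (n.choose k : ℚ) ^ s * ((n + k).choose k : ℚ) ^ s * c k) :
    ∃ n > 0, ¬ ∃ z : ℤ, c n = z := by
  by_contra! H
  obtain ⟨d, rfl⟩ : ∃ d, r = s + (d + 1) := ⟨r - s - 1, by omega⟩
  have h0 : c 0 = 1 := by simpa using (h 0).symm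
  have h1 : c 1 = 2 ^ (d + 1) := by
    have := h 1
    simp [sum_range_succ, h0, pow_add _ s] at this
    exact this.symm
  choose! z hz using H
  obtain ⟨p, hp, pp⟩ := Nat.exists_infinite_primes (d + 5)
  obtain ⟨m, rfl⟩ : ∃ m, p = m + 3 := ⟨p - 3, by omega⟩
  have e := h (m + 1)
  rw [sum_range_succ', sum_range_succ', sum_range_succ', sum_range_succ', h0, h1,
    sum_congr rfl fun k _ => congrArg _ (hz (k + 1 + 1) (by omega))] at e
  simp only [zero_add, Nat.choose_one_right, Nat.choose_zero_right] at e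
  set P : ℤ := m + 3
  have dv (t) (ht : 2 ≤ t) (k) (hk : k ∈ range m) :
      P ^ 2 ∣ ((m + 1 + (k + 1 + 1)).choose (k + 1 + 1) : ℤ) ^ t := by
    have := mem_range.1 hk
    have : m + 3 ∣ (m + 1 + (k + 1 + 1)).choose (k + 1 + 1) := pp.dvd_choose (by omega) (by omega) (by omega)
    exact pow_dvd_pow_of_dvd_of_le (Int.natCast_dvd_natCast.2 this) ht
  have e2 : P ^ 2 ∣ ((m + 1) * (m + 2)) ^ s * (((m + 1) * (m + 2)) ^ (d + 1) - 2 ^ (d + 1)) := by
    have a := dvd_sum fun k hk => (dv s hs k hk).mul_left (((m + 1).choose (k + 1 + 1)) ^ s) |>.mul_right (z (k + 1 + 1))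
    have b := dvd_sum fun k hk => (dv (s + (d + 1)) (by omega) k hk).mul_left
      (((m + 1).choose (k + 1 + 1)) ^ (s + (d + 1)))
    refine (a.sub b).trans (dvd_of_eq ?_)
    rw [← Int.cast_inj (α := ℚ)]
    push_cast [mul_pow] at e ⊢
    rw [show (m : ℚ) + 1 + 1 = m + 2 by ring] at e
    linear_combination -e
  have pz : Prime P := Nat.prime_iff_prime_int.1 pp
  have nd (x : ℕ) (a : 0 < x) (b : x < m + 3) : ¬ P ∣ x := fun h =>
    absurd (Int.le_of_dvd (by omega) h) (by omega)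
  have e3 := pz.pow_dvd_of_dvd_mul_left 2 (fun h => (pz.dvd_mul.1 (pz.dvd_of_dvd_pow h)).elim
    (nd (m + 1) (by omega) (by omega)) (nd (m + 2) (by omega) (by omega))) e2
  have e4 := sq_dvd_add_pow_sub_sub (P * m) 2 (d + 1)
  rw [show (2 + P * m : ℤ) = (m + 1) * (m + 2) by ring] at e4
  have e5 := (pow_dvd_pow_of_dvd (dvd_mul_right P m) 2).trans e4
  have e6 : P * P ∣ P * (2 ^ d * (m * (d + 1))) := by
    rw [← sq]
    refine (e3.sub e5).trans (dvd_of_eq ?_)
    simp; ring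
  rcases pz.dvd_mul.1 ((mul_dvd_mul_iff_left pz.ne_zero).1 e6) with a | a
  · exact nd 2 (by omega) (by omega) (pz.dvd_of_dvd_pow a)
  · exact (pz.dvd_mul.1 a).elim (nd m (by omega) (by omega)) (nd (d + 1) (by omega) (by omega))

end Pool.Agent.Results.MP_90f83a_nt.Q1
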